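import Pool.Agent.helper72.PV.SpecH

/-!
# Project pv (MP_376aaf_an), row pvh:DEN: approximation by integer valued functions
-/

set_option autoImplicit false

open Finset

namespace Pool.Agent.PVH

open Pool.Agent.PV Pool.Agent.CZ

theorem DEN : DEN_stmt := by
  classical
  intro Ω _ _ _ _ f
  have hV : ∀ x : Ω, ∃ V : Set Ω, IsClopen V ∧ x ∈ V ∧ V ⊆ {y | |f y - f x| < 1 / 2} := by
    intro x
    apply compact_exists_isClopen_in_isOpen
    · exact isOpen_lt (by fun_prop) continuous_const
    · simp
  choose V hVc hVx hVs using hV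
  obtain ⟨t, ht⟩ := isCompact_univ.elim_finite_subcover V (fun x => (hVc x).2)
    (fun x _ => Set.mem_iUnion.2 ⟨x, hVx x⟩)
  have key : ∀ t : Finset Ω, ∃ f' : C(Ω, ℤ), ∀ x ∈ t, ∀ y ∈ V x, |f y - (f' y : ℝ)| ≤ 1 := by
    intro t
    induction t using Finset.induction_on with
    | empty => exact ⟨0, fun x hx => absurd hx (by simp)⟩
    | insert a t ha ih =>
      obtain ⟨f', hf'⟩ := ih
      have hc : Continuous ((V a).piecewise (fun _ => round (f a)) (f' : Ω → ℤ)) := by
        apply Continuous.piecewise
        · intro y hy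
          rw [(hVc a).frontier_eq] at hy
          exact absurd hy (Set.notMem_empty y)
        · exact continuous_const
        · exact f'.continuous
      refine ⟨⟨_, hc⟩, ?_⟩
      intro x hx y hy
      change |f y - (((V a).piecewise (fun _ => round (f a)) (f' : Ω → ℤ) y : ℤ) : ℝ)| ≤ 1
      by_cases hya : y ∈ V a
      · rw [Set.piecewise_eq_of_mem _ _ _ hya]
        have h1 : |f y - f a| < 1 / 2 := hVs a hya
        have h2 : |f a - (round (f a) : ℝ)| ≤ 1 / 2 := abs_sub_round (f a)
        have h3 := abs_sub_le (f y) (f a) (round (f a) : ℝ)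
        linarith
      · rw [Set.piecewise_eq_of_notMem _ _ _ hya]
        rcases Finset.mem_insert.1 hx with rfl | hx
        · exact absurd hy hya
        · exact hf' x hx y hy
  obtain ⟨f', hf'⟩ := key t
  refine ⟨f', fun y => ?_⟩
  have hy := ht (Set.mem_univ y)
  simp only [Set.mem_iUnion] at hy
  obtain ⟨x, hx, hy⟩ := hy
  exact hf' x hx y hy

end Pool.Agent.PVH
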