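import Pool.Agent.helper53.PV.SpecF

/-!
# Project pv (MP_376aaf_an), row pvf:FSB: sets with small boundary in the extension
-/

set_option autoImplicit false

open scoped Topology
open MeasureTheory Filter

namespace Pool.Agent.PV

open Pool.Agent.CZ

theorem FSB : FSB_stmt := by
  intro X₀ Y _ _ _ _ _ α₀ x₀ f hf p W hW
  rw [mem_nhds_subtype] at hW
  obtain ⟨W1, hW1, hW1s⟩ := hW
  have hW1' : W1 ∈ 𝓝 (p.1.1, p.1.2) := hW1
  rw [mem_nhds_prod_iff'] at hW1'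
  obtain ⟨U1, V1, hU1, hpU1, hV1, hpV1, hUV⟩ := hW1'
  obtain ⟨U, hU, hpU, hUU1⟩ := compact_exists_isClopen_in_isOpen hU1 hpU1
  rw [isOpen_pi_iff] at hV1
  obtain ⟨S, u, hu, hSu⟩ := hV1 p.1.2 hpV1
  have c1 : Continuous fun q : ESp α₀ x₀ f => q.1.1 := continuous_fst.comp continuous_subtype_val
  have c2 : ∀ k : ℤ, Continuous fun q : ESp α₀ x₀ f => q.1.2 k := fun k =>
    (continuous_apply k).comp (continuous_snd.comp continuous_subtype_val)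
  have hVo : IsOpen {q : ESp α₀ x₀ f | q.1.1 ∈ U ∧ ∀ k ∈ S, q.1.2 k ∈ u k} := by
    have e : {q : ESp α₀ x₀ f | q.1.1 ∈ U ∧ ∀ k ∈ S, q.1.2 k ∈ u k} =
        (fun q : ESp α₀ x₀ f => q.1.1) ⁻¹' U ∩
          ⋂ k ∈ S, (fun q : ESp α₀ x₀ f => q.1.2 k) ⁻¹' (u k) := by
      ext q
      simp only [Set.mem_setOf_eq, Set.mem_inter_iff, Set.mem_preimage, Set.mem_iInter]
    rw [e]
    exact (hU.2.preimage c1).inter
      (isOpen_biInter_finset fun k hk => (hu k hk).1.preimage (c2 k))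
  refine ⟨{q : ESp α₀ x₀ f | q.1.1 ∈ U ∧ ∀ k ∈ S, q.1.2 k ∈ u k}, hVo,
    ⟨hpU, fun k hk => (hu k hk).2⟩, ?_, S, ?_⟩
  · rintro q ⟨hq1, hq2⟩
    apply hW1s
    apply hUV
    exact ⟨hUU1 hq1, hSu fun k hk => hq2 k hk⟩
  · rw [hVo.frontier_eq]
    rintro q ⟨hq, hqV⟩
    by_contra hcon
    apply hqV
    simp only [Set.mem_iUnion, Set.mem_preimage, Set.mem_singleton_iff, not_exists] at hcon
    have hne : ∀ k ∈ S, (α₀ ^ k) q.1.1 ≠ x₀ := by
      intro k hk h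
      apply hcon k hk
      have h0 : (α₀ ^ (-k)) ((α₀ ^ k) q.1.1) = q.1.1 := by
        rw [zpow_zpow_apply, neg_add_cancel, zpow_zero]
        rfl
      exact h0.symm.trans (congrArg (fun x => (α₀ ^ (-k)) x) h)
    have hev : ∀ k ∈ S, ∀ᶠ q' : ESp α₀ x₀ f in 𝓝 q, q'.1.2 k = q.1.2 k := by
      intro k hk
      have c3 : Continuous fun q : ESp α₀ x₀ f => (α₀ ^ k) q.1.1 := (α₀ ^ k).continuous.comp c1
      have h1 : ∀ᶠ q' : ESp α₀ x₀ f in 𝓝 q, f ((α₀ ^ k) q'.1.1) = f ((α₀ ^ k) q.1.1) :=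
        c3.continuousAt.eventually (hf _ (hne k hk))
      have h2 : ∀ᶠ q' : ESp α₀ x₀ f in 𝓝 q, (α₀ ^ k) q'.1.1 ≠ x₀ :=
        c3.continuousAt.eventually (isOpen_ne.mem_nhds (hne k hk))
      filter_upwards [h1, h2] with q' h1 h2
      rcases q'.2 k with h3 | h3
      · exact absurd h3 h2
      · rcases q.2 k with h4 | h4
        · exact absurd h4 (hne k hk)
        · rw [h3, h4, h1]
    have hev2 : ∀ᶠ q' : ESp α₀ x₀ f in 𝓝 q, ∀ k ∈ S, q'.1.2 k = q.1.2 k :=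
      (Filter.eventually_all_finset S).2 hev
    obtain ⟨q', hq'1, hq'2⟩ := mem_closure_iff_nhds.1 hq _ hev2
    refine ⟨?_, fun k hk => ?_⟩
    · have h5 : IsClosed {q : ESp α₀ x₀ f | q.1.1 ∈ U} := hU.1.preimage c1
      have h6 : closure {q : ESp α₀ x₀ f | q.1.1 ∈ U ∧ ∀ k ∈ S, q.1.2 k ∈ u k} ⊆
          {q : ESp α₀ x₀ f | q.1.1 ∈ U} := h5.closure_subset_iff.2 fun q hq => hq.1
      exact h6 hq
    · have h7 : q'.1.2 k = q.1.2 k := hq'1 k hk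
      rw [← h7]
      exact hq'2.2 k hk

end Pool.Agent.PV
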