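import Pool.Agent.helper77.PV.SpecC

/-!
# Project pv (MP_376aaf_an), row pv:HOG: the holonomy map is onto
-/

set_option autoImplicit false

open scoped Matrix Topology
open Filter

namespace Pool.Agent.PV

open Pool.Agent.CZ

theorem HOG_k0_congr {B : Type} [Ring B] {ι : Type} [Fintype ι] (a b : Matrix ι ι B) (h : a = b)
    (ha : a * a = a) (hb : b * b = b) : k0 a ha = k0 b hb := by
  subst h
  rfl

theorem HOG_circle (t : UnitAddCircle) : ∃ s : unitInterval, (((s : ℝ)) : UnitAddCircle) = t := by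
  have h : t ∈ ((↑) : ℝ → UnitAddCircle) '' Set.Icc 0 (0 + 1) := by
    rw [AddCircle.coe_image_Icc_eq]
    exact Set.mem_univ t
  obtain ⟨s, hs, rfl⟩ := h
  rw [zero_add] at hs
  exact ⟨⟨s, hs⟩, rfl⟩

theorem HOG_ext {B : Type} [NormedRing B] {ι : Type} (E F : Matrix ι ι C(UnitAddCircle, B))
    (h : ∀ t, evM E t = evM F t) : E = F := by
  ext i j t
  exact congrFun (congrFun (h t) i) j

theorem HOG_evM_mul {B : Type} [NormedRing B] {ι : Type} [Fintype ι]
    (E F : Matrix ι ι C(UnitAddCircle, B)) (t : UnitAddCircle) :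
    evM (E * F) t = evM E t * evM F t := by
  ext i j
  change (∑ k, E i k * F k j) t = ∑ k, E i k t * F k j t
  rw [ContinuousMap.sum_apply]
  rfl

theorem HOG (hROT : ROT_stmt) (hLPC : LPC_stmt) (hK1G : K1G_stmt) (hK1B : K1B_stmt) (hK1M : K1M_stmt)
    (hK0B : K0B_stmt) (hFUN : FUN_stmt) : HOG_stmt := by
  intro B _ _ _ de hde y
  obtain ⟨n, w, rfl⟩ := hK1G B y
  obtain ⟨hWc, hW0, hW1, W', hW'c, hW'⟩ := hROT B (Fin n) (w : Matrix (Fin n) (Fin n) B)
    ((w⁻¹ : (Matrix (Fin n) (Fin n) B)ˣ) : Matrix (Fin n) (Fin n) B) (Units.mul_inv w) (Units.inv_mul w)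
  set W := rotW (w : Matrix (Fin n) (Fin n) B)
    ((w⁻¹ : (Matrix (Fin n) (Fin n) B)ˣ) : Matrix (Fin n) (Fin n) B) with hW
  set P : Matrix (Fin n ⊕ Fin n) (Fin n ⊕ Fin n) B := Matrix.fromBlocks 1 0 0 0 with hP
  have hPP : P * P = P := by
    rw [hP, Matrix.fromBlocks_multiply]
    simp
  have hW'0 : W' 0 = 1 := by
    have := (hW' 0).1
    rwa [hW0, mul_one] at this
  have hW1P : W 1 * P = Matrix.fromBlocks (w : Matrix (Fin n) (Fin n) B) 0 0 0 := by
    rw [hW1, hP, Matrix.fromBlocks_multiply]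
    simp
  have hPW1 : P * W 1 = Matrix.fromBlocks (w : Matrix (Fin n) (Fin n) B) 0 0 0 := by
    rw [hW1, hP, Matrix.fromBlocks_multiply]
    simp
  -- the path of idempotents
  have hc1 : Continuous fun s : unitInterval => W (s : ℝ) := hWc.comp continuous_subtype_val
  have hc2 : Continuous fun s : unitInterval => W' (s : ℝ) := hW'c.comp continuous_subtype_val
  set h : C(unitInterval, Matrix (Fin n ⊕ Fin n) (Fin n ⊕ Fin n) B) :=
    ⟨fun s => W (s : ℝ) * P * W' (s : ℝ), (hc1.mul continuous_const).mul hc2⟩ with hh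
  set V : C(unitInterval, Matrix (Fin n ⊕ Fin n) (Fin n ⊕ Fin n) B) :=
    ⟨fun s => W (s : ℝ) * P, hc1.mul continuous_const⟩ with hV
  set V' : C(unitInterval, Matrix (Fin n ⊕ Fin n) (Fin n ⊕ Fin n) B) :=
    ⟨fun s => P * W' (s : ℝ), continuous_const.mul hc2⟩ with hV'
  have hh0 : h 0 = P := by
    change W ((0 : unitInterval) : ℝ) * P * W' ((0 : unitInterval) : ℝ) = P
    rw [Set.Icc.coe_zero, hW0, hW'0, one_mul, mul_one]
  have hh1 : h 1 = P := by
    change W ((1 : unitInterval) : ℝ) * P * W' ((1 : unitInterval) : ℝ) = P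
    rw [Set.Icc.coe_one, hW1P, ← hPW1, mul_assoc, (hW' 1).2, mul_one]
  obtain ⟨E, hE⟩ := hLPC B (Fin n ⊕ Fin n) h (hh0.trans hh1.symm)
  have hE0 : evM E 0 = P := by
    have := hE 0
    rw [Set.Icc.coe_zero, QuotientAddGroup.mk_zero] at this
    rw [this, hh0]
  have hhh : ∀ s, h s * h s = h s := by
    intro s
    change W (s : ℝ) * P * W' (s : ℝ) * (W (s : ℝ) * P * W' (s : ℝ)) = W (s : ℝ) * P * W' (s : ℝ)
    have e : W (s : ℝ) * P * W' (s : ℝ) * (W (s : ℝ) * P * W' (s : ℝ)) =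
        W (s : ℝ) * P * (W' (s : ℝ) * W (s : ℝ)) * P * W' (s : ℝ) := by
      simp only [mul_assoc]
    rw [e, (hW' s).1, mul_one, mul_assoc (W (s : ℝ)), hPP]
  have hEE : E * E = E := by
    apply HOG_ext
    intro t
    obtain ⟨s, rfl⟩ := HOG_circle t
    rw [HOG_evM_mul, hE, hhh]
  have hHol : Hol E V V' := by
    refine ⟨?_, ?_, ?_, ?_, ?_⟩
    · rw [hE0]
      change W ((0 : unitInterval) : ℝ) * P = P
      rw [Set.Icc.coe_zero, hW0, one_mul]
    · intro s
      rw [hE0]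
      change P * W' (s : ℝ) * (W (s : ℝ) * P) = P
      have e : P * W' (s : ℝ) * (W (s : ℝ) * P) = P * (W' (s : ℝ) * W (s : ℝ)) * P := by
        simp only [mul_assoc]
      rw [e, (hW' s).1, mul_one, hPP]
    · intro s
      rw [hE]
      change W (s : ℝ) * P * (P * W' (s : ℝ)) = W (s : ℝ) * P * W' (s : ℝ)
      rw [← mul_assoc, mul_assoc (W (s : ℝ)), hPP]
    · intro s
      rw [hE0]
      change W (s : ℝ) * P * P = W (s : ℝ) * P
      rw [mul_assoc, hPP]
    · intro s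
      rw [hE0]
      change P * (P * W' (s : ℝ)) = P * W' (s : ℝ)
      rw [← mul_assoc, hPP]
  -- the holonomy
  set g : (Matrix (Fin n ⊕ Fin n) (Fin n ⊕ Fin n) B)ˣ :=
    { val := Matrix.fromBlocks (w : Matrix (Fin n) (Fin n) B) 0 0 1
      inv := Matrix.fromBlocks ((w⁻¹ : (Matrix (Fin n) (Fin n) B)ˣ) : Matrix (Fin n) (Fin n) B) 0 0 1
      val_inv := by
        rw [Matrix.fromBlocks_multiply]
        simp
      inv_val := by
        rw [Matrix.fromBlocks_multiply]
        simp } with hg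
  have hgv : (g : Matrix (Fin n ⊕ Fin n) (Fin n ⊕ Fin n) B) =
      Matrix.fromBlocks (w : Matrix (Fin n) (Fin n) B) 0 0 1 := rfl
  have h1P : (1 : Matrix (Fin n ⊕ Fin n) (Fin n ⊕ Fin n) B) - P = Matrix.fromBlocks 0 0 0 1 := by
    rw [hP, ← Matrix.fromBlocks_one, sub_eq_iff_eq_add, Matrix.fromBlocks_add]
    simp
  have hgV : (g : Matrix (Fin n ⊕ Fin n) (Fin n ⊕ Fin n) B) = V 1 + (1 - evM E 0) := by
    rw [hE0, h1P, hgv]
    change _ = W ((1 : unitInterval) : ℝ) * P + _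
    rw [Set.Icc.coe_one, hW1P, Matrix.fromBlocks_add]
    simp
  have hdeE : de (k0 E hEE) = k1 w := by
    rw [hde _ E hEE V V' g hHol hgV, hK1B B (Fin n) (Fin n) w 1 g (by rw [hgv]; rfl),
      (hK1M B (Fin n) 1 1).2.2.1, add_zero]
  -- the constant loop
  set F : Matrix (Fin n ⊕ Fin n) (Fin n ⊕ Fin n) C(UnitAddCircle, B) := P.map (cl B) with hF
  have hFt : ∀ t, evM F t = P := by
    intro t
    ext i j
    rfl
  have hFF : F * F = F := by
    apply HOG_ext
    intro t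
    rw [HOG_evM_mul, hFt, hPP]
  have hHolF : Hol F (ContinuousMap.const _ P) (ContinuousMap.const _ P) := by
    refine ⟨?_, ?_, ?_, ?_, ?_⟩
    · rw [hFt]
      rfl
    · intro s
      rw [hFt]
      exact hPP
    · intro s
      rw [hFt]
      exact hPP
    · intro s
      rw [hFt]
      exact hPP
    · intro s
      rw [hFt]
      exact hPP
  have hdeF : de (k0 F hFF) = 0 := by
    rw [hde _ F hFF _ _ 1 hHolF, (hK1M B (Fin n ⊕ Fin n) 1 1).2.2.1]
    rw [hFt]
    change (1 : Matrix (Fin n ⊕ Fin n) (Fin n ⊕ Fin n) B) = P + (1 - P)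
    rw [add_sub_cancel]
  have hev : ∀ X : Matrix (Fin n ⊕ Fin n) (Fin n ⊕ Fin n) C(UnitAddCircle, B),
      X.map (el B).toRingHom = evM X 0 := fun X => rfl
  refine ⟨k0 E hEE - k0 F hFF, ?_, ?_⟩
  · have hE2 : E.map (el B).toRingHom * E.map (el B).toRingHom = E.map (el B).toRingHom := by
      rw [hev, hE0, hPP]
    have hF2 : F.map (el B).toRingHom * F.map (el B).toRingHom = F.map (el B).toRingHom := by
      rw [hev, hFt, hPP]
    rw [map_sub, k0map_k0 _ E hEE hE2, k0map_k0 _ F hFF hF2, sub_eq_zero]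
    apply HOG_k0_congr
    rw [hev, hev, hE0, hFt]
  · rw [map_sub, hdeE, hdeF, sub_zero]

end Pool.Agent.PV
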