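import Pool.Agent.helper45.PV.SpecG

/-!
# Project pv (MP_376aaf_an), row pvg:KR2: the kernel of `K₀(L1 D) → K₀(MC φ)`
-/

set_option autoImplicit false

open scoped Matrix Topology

namespace Pool.Agent.PV

open Pool.Agent.CZ

theorem KR2_congr {B : Type} [Ring B] {ι : Type} [Fintype ι] (a b : Matrix ι ι B) (h : a = b)
    (ha : a * a = a) (hb : b * b = b) : k0 a ha = k0 b hb := by
  subst h
  rfl

theorem KR2_pad_map {A B : Type} [Ring A] [Ring B] (f : A →+* B) {ι : Type} (e : Matrix ι ι A)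
    (k l : ℕ) : (pad e k l).map f = pad (e.map f) k l := by
  unfold pad
  rw [Matrix.fromBlocks_map, Matrix.fromBlocks_map]
  rw [Matrix.map_one f (map_zero f) (map_one f), Matrix.map_zero f (map_zero f),
    Matrix.map_zero f (map_zero f), Matrix.map_zero f (map_zero f), Matrix.map_zero f (map_zero f),
    Matrix.map_zero f (map_zero f)]

theorem KR2_idm {A B : Type} [Ring A] [Ring B] (f : A →+* B) {ι : Type} [Fintype ι]
    (e : Matrix ι ι A) (he : e * e = e) : e.map f * e.map f = e.map f := by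
  rw [← Matrix.map_mul, he]

/-- the reduction to an idempotent matrix with a 0-1 value -/
theorem KR2_red (hFUN : FUN_stmt) (hK0E : K0E_stmt) (hK0B : K0B_stmt) (hK0G : K0G_stmt)
    (hK0C : K0C_stmt) (hK0D : K0D_stmt) {A M K : Type} [Ring A] [Ring M] [Ring K] (ε : A →+* K)
    (κ : K →+* A) (j : A →+* M) (hεκ : ∀ c, ε (κ c) = c) (x : K0 A) (h1 : k0map ε x = 0)
    (h2 : k0map j x = 0) :
    ∃ (ι : Type) (_ : Fintype ι) (_ : DecidableEq ι) (H : Matrix ι ι A) (hH : H * H = H)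
      (P : Matrix ι ι K) (N : ℕ) (X : (Matrix ι ι M)ˣ), H.map ε = P ∧
      (X : Matrix ι ι M) * H.map j = (P.map κ).map j * (X : Matrix ι ι M) ∧
      x = k0 H hH - N • unitCls A := by
  obtain ⟨n, m, H, hH, rfl⟩ := hK0G A x
  rw [map_sub, map_nsmul, hFUN.2.2.1, k0map_k0 ε H hH (KR2_idm ε H hH), sub_eq_zero] at h1
  rw [map_sub, map_nsmul, hFUN.2.2.1, k0map_k0 j H hH (KR2_idm j H hH), sub_eq_zero] at h2
  -- block sums with zero
  have hb : ∀ (R : Type) [Ring R] (e : Matrix (Fin n) (Fin n) R), e * e = e →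
      Matrix.fromBlocks e 0 0 (0 : Matrix (Fin m) (Fin m) R) * Matrix.fromBlocks e 0 0 0 =
        Matrix.fromBlocks e 0 0 0 := by
    intro R _ e he
    rw [Matrix.fromBlocks_multiply]
    simp [he]
  have hb' : ∀ (R : Type) [Ring R], Matrix.fromBlocks (0 : Matrix (Fin n) (Fin n) R) 0 0
      (1 : Matrix (Fin m) (Fin m) R) * Matrix.fromBlocks 0 0 0 1 = Matrix.fromBlocks 0 0 0 1 := by
    intro R _
    rw [Matrix.fromBlocks_multiply]
    simp
  have hc : ∀ (R : Type) [Ring R] (e : Matrix (Fin n) (Fin n) R) (he : e * e = e),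
      k0 (Matrix.fromBlocks e 0 0 (0 : Matrix (Fin m) (Fin m) R)) (hb R e he) = k0 e he := by
    intro R _ e he
    rw [hK0B.1 R (Fin n) (Fin m) e 0 he (mul_zero 0), hK0B.2.1, add_zero]
  have hc' : ∀ (R : Type) [Ring R], k0 (Matrix.fromBlocks (0 : Matrix (Fin n) (Fin n) R) 0 0
      (1 : Matrix (Fin m) (Fin m) R)) (hb' R) = m • unitCls R := by
    intro R _
    rw [hK0B.1 R (Fin n) (Fin m) 0 1 (mul_zero 0) (mul_one 1), hK0B.2.1, zero_add, hK0B.2.2,
      Fintype.card_fin]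
  -- first step
  obtain ⟨k, l, c, hcc⟩ := hK0C K (Fin n ⊕ Fin m) _ _ (hb K _ (KR2_idm ε H hH)) (hb' K)
    (by rw [hc K _ (KR2_idm ε H hH), hc', h1])
  obtain ⟨hp1, hp2⟩ := hK0D A (Fin n ⊕ Fin m) _ (hb A H hH) k l
  obtain ⟨hq1, hq2⟩ := hK0D M (Fin n ⊕ Fin m) _ (hb' M) k l
  set H1 : Matrix (Fin n ⊕ Fin m) (Fin n ⊕ Fin m) A := Matrix.fromBlocks H 0 0 0 with hH1
  set PK : Matrix (Fin n ⊕ Fin m) (Fin n ⊕ Fin m) K := Matrix.fromBlocks 0 0 0 1 with hPK
  set PM : Matrix (Fin n ⊕ Fin m) (Fin n ⊕ Fin m) M := Matrix.fromBlocks 0 0 0 1 with hPM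
  have e1 : H1.map ε = Matrix.fromBlocks (H.map ε) 0 0 0 := by
    rw [hH1, Matrix.fromBlocks_map, Matrix.map_zero ε (map_zero ε), Matrix.map_zero ε (map_zero ε),
      Matrix.map_zero ε (map_zero ε)]
  have e2 : (PK.map κ).map j = PM := by
    rw [hPK, hPM, Matrix.fromBlocks_map, Matrix.fromBlocks_map,
      Matrix.map_zero κ (map_zero κ), Matrix.map_zero κ (map_zero κ), Matrix.map_zero κ (map_zero κ),
      Matrix.map_zero j (map_zero j), Matrix.map_zero j (map_zero j), Matrix.map_zero j (map_zero j),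
      Matrix.map_one κ (map_zero κ) (map_one κ), Matrix.map_one j (map_zero j) (map_one j)]
  have e3 : (umap κ c).val.map ε = c.val := by
    ext a b
    exact hεκ _
  have e4 : (umap κ c)⁻¹.val.map ε = c⁻¹.val := by
    have : (umap κ c)⁻¹ = umap κ c⁻¹ := by
      unfold umap
      rw [map_inv]
    rw [this]
    ext a b
    exact hεκ _
  set H2 := (umap κ c).val * pad H1 k l *
    (umap κ c)⁻¹.val with hH2
  have f1 : H2 * H2 = H2 := by
    have : H2 * H2 = (umap κ c).val * pad H1 k l *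
        ((umap κ c)⁻¹.val *
          (umap κ c).val) * pad H1 k l *
        (umap κ c)⁻¹.val := by
      rw [hH2]
      simp only [mul_assoc]
    rw [this, Units.inv_mul, mul_one, mul_assoc _ (pad H1 k l) (pad H1 k l), hp1]
  have f2 : k0 H2 f1 = k0 H hH + k • unitCls A := by
    rw [← hc A H hH, ← hp2]
    refine hK0E A _ _ H2 (pad H1 k l) f1 hp1
      ((umap κ c).val * pad H1 k l)
      (umap κ c)⁻¹.val rfl ?_
    rw [← mul_assoc, Units.inv_mul, one_mul]
  have f3 : H2.map ε = pad PK k l := by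
    rw [hH2, Matrix.map_mul, Matrix.map_mul, e3, e4, KR2_pad_map, e1, hcc, mul_assoc,
      Units.mul_inv, mul_one]
  have f4 : k0 (H2.map j) (KR2_idm j H2 f1) = k0 (pad PM k l) hq1 := by
    rw [← k0map_k0 j H2 f1 (KR2_idm j H2 f1), f2, map_add, map_nsmul, hFUN.2.2.1,
      k0map_k0 j H hH (KR2_idm j H hH), h2, hq2, hc']
  -- second step
  obtain ⟨k', l', X, hX⟩ := hK0C M _ _ _ (KR2_idm j H2 f1) hq1 f4
  obtain ⟨hr1, hr2⟩ := hK0D A _ H2 f1 k' l'
  refine ⟨_, inferInstance, inferInstance, pad H2 k' l', hr1, pad (pad PK k l) k' l', m + k + k', X,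
    ?_, ?_, ?_⟩
  · rw [KR2_pad_map, f3]
  · rw [KR2_pad_map, KR2_pad_map, KR2_pad_map, KR2_pad_map, KR2_pad_map, e2]
    exact hX
  · rw [hr2, f2, add_smul, add_smul]
    abel

theorem KR2_unit {R : Type} [Ring R] (w : Rˣ) (P : R) (hP : P * P = P) (hw : (w : R) * P = P * w) :
    ∃ U : Rˣ, (U : R) = w * P + (1 - P) := by
  have hw' : ((w⁻¹ : Rˣ) : R) * P = P * ((w⁻¹ : Rˣ) : R) := by
    have h1 := congrArg (fun z => ((w⁻¹ : Rˣ) : R) * z * ((w⁻¹ : Rˣ) : R)) hw
    simp only [← mul_assoc, Units.inv_mul, one_mul] at h1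
    rw [mul_assoc _ (w : R), Units.mul_inv, mul_one] at h1
    exact h1.symm
  have key : ∀ a b : R, a * P = P * a → b * P = P * b → a * b = 1 →
      (a * P + (1 - P)) * (b * P + (1 - P)) = 1 := by
    intro a b ha hb hab
    have e1 : a * P * (b * P) = P := by
      rw [mul_assoc, ← mul_assoc P, ← hb, mul_assoc b, hP, ← mul_assoc, hab, one_mul]
    have e2 : a * P * (1 - P) = 0 := by
      rw [mul_assoc, mul_sub, mul_one, hP, sub_self, mul_zero]
    have e3 : (1 - P) * (b * P) = 0 := by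
      rw [hb, sub_mul, one_mul, ← mul_assoc, hP, sub_self]
    have e4 : (1 - P) * (1 - P) = 1 - P := by
      rw [mul_sub, mul_one, sub_mul, one_mul, hP, sub_self, sub_zero]
    rw [add_mul, mul_add, mul_add, e1, e2, e3, e4, add_zero, zero_add, add_sub_cancel]
  exact ⟨⟨w * P + (1 - P), ((w⁻¹ : Rˣ) : R) * P + (1 - P), key _ _ hw hw' (Units.mul_inv w),
    key _ _ hw' hw (Units.inv_mul w)⟩, rfl⟩

theorem KR2 (hFUN : FUN_stmt) (hK0E : K0E_stmt) (hK0B : K0B_stmt) (hK0G : K0G_stmt)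
    (hK0C : K0C_stmt) (hK0D : K0D_stmt) (hK1M : K1M_stmt) (hKC : KC_stmt) : KR2_stmt := by
  intro C D _ _ _ _ _ _ φ χ hφ hχ de hde x hx1 hx2
  obtain ⟨ι, _, _, H, hH, P, N, X, hHP, hXH, rfl⟩ := KR2_red hFUN hK0E hK0B hK0G hK0C hK0D
    (eL χ).toRingHom (algebraMap ℂ (L1 D)) (jm φ χ).toRingHom (fun c => (eL χ).commutes c) x hx1 hx2
  -- the class of the unit
  have hone : de (unitCls C(UnitAddCircle, D)) = 0 := by
    have h1 : unitCls C(UnitAddCircle, D) =
        k0 (1 : Matrix (Fin 1) (Fin 1) C(UnitAddCircle, D)) (mul_one 1) := by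
      rw [hK0B.2.2, Fintype.card_fin, one_smul]
    have hev : ∀ t, evM (1 : Matrix (Fin 1) (Fin 1) C(UnitAddCircle, D)) t = 1 := by
      intro t
      exact map_one (evC D t).toRingHom.mapMatrix
    rw [h1, hde (Fin 1) 1 (mul_one 1) (ContinuousMap.const _ 1) (ContinuousMap.const _ 1) 1 ?_ ?_,
      (hK1M D (Fin 1) 1 1).2.2.1]
    · refine ⟨?_, ?_, ?_, ?_, ?_⟩
      · rw [hev]
        rfl
      · intro s
        rw [hev]
        exact mul_one 1
      · intro s
        rw [hev]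
        exact mul_one 1
      · intro s
        rw [hev]
        exact mul_one _
      · intro s
        rw [hev]
        exact one_mul _
    · rw [hev, sub_self, add_zero]
      rfl
  have hPP : P * P = P := by
    rw [← hHP]
    exact KR2_idm _ H hH
  -- paths
  obtain ⟨W, hW⟩ := pthM φ (X : Matrix ι ι (MC φ))
  obtain ⟨W', hW'⟩ := pthM φ ((X⁻¹ : (Matrix ι ι (MC φ))ˣ) : Matrix ι ι (MC φ))
  have m1 : ∀ s, (1 : Matrix ι ι (MC φ)).map (pM φ s) = 1 := fun s =>
    map_one (pM φ s).toRingHom.mapMatrix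
  have p1 : ∀ (A B : Matrix ι ι (MC φ)) (s : unitInterval), (A * B).map (pM φ s) =
      A.map (pM φ s) * B.map (pM φ s) := fun A B s => map_mul (pM φ s).toRingHom.mapMatrix A B
  have hWW' : ∀ s, W s * W' s = 1 := fun s => by rw [hW, hW', ← p1, Units.mul_inv, m1]
  have hW'W : ∀ s, W' s * W s = 1 := fun s => by rw [hW, hW', ← p1, Units.inv_mul, m1]
  set PD : Matrix ι ι D := P.map (algebraMap ℂ D) with hPD
  set PC : Matrix ι ι C := P.map (algebraMap ℂ C) with hPC
  have hPDD : PD * PD = PD := KR2_idm (algebraMap ℂ D) P hPP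
  have hPCC : PC * PC = PC := KR2_idm (algebraMap ℂ C) P hPP
  have hPM : ∀ s, ((P.map (algebraMap ℂ (L1 D))).map (jm φ χ)).map (pM φ s) = PD := by
    intro s
    ext a b
    change pM φ s (jm φ χ (algebraMap ℂ (L1 D) (P a b))) = algebraMap ℂ D (P a b)
    rw [AlgHom.commutes, AlgHom.commutes]
  have hPG : ((P.map (algebraMap ℂ (L1 D))).map (jm φ χ)).map (gM φ) = PC := by
    ext a b
    change gM φ (jm φ χ (algebraMap ℂ (L1 D) (P a b))) = algebraMap ℂ C (P a b)
    rw [AlgHom.commutes, AlgHom.commutes]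
  have hXH' : (X : Matrix ι ι (MC φ)) * H.map (jm φ χ) =
      (P.map (algebraMap ℂ (L1 D))).map (jm φ χ) * (X : Matrix ι ι (MC φ)) := hXH
  have hWs : ∀ s : unitInterval, W s * H.map (pL D ((s : ℝ) : UnitAddCircle)) = PD * W s := by
    intro s
    have h1 := congrArg (fun Z : Matrix ι ι (MC φ) => Z.map (pM φ s)) hXH'
    simp only [p1] at h1
    rw [hPM, ← hW] at h1
    exact h1
  have hH0 : H.map (pL D 0) = PD := by
    rw [endL χ H]
    exact congrArg (fun Z : Matrix ι ι ℂ => Z.map (algebraMap ℂ D)) hHP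
  -- the component over C
  set xg : (Matrix ι ι C)ˣ := umap (gM φ).toRingHom X with hxg
  have hxgP : (xg : Matrix ι ι C) * PC = PC * (xg : Matrix ι ι C) := by
    have h1 := congrArg (fun Z : Matrix ι ι (MC φ) => Z.map (gM φ)) hXH'
    have p2 : ∀ (A B : Matrix ι ι (MC φ)), (A * B).map (gM φ) = A.map (gM φ) * B.map (gM φ) :=
      fun A B => map_mul (gM φ).toRingHom.mapMatrix A B
    simp only [p2] at h1
    rw [hPG] at h1
    have h2 : (H.map (jm φ χ)).map (gM φ) = PC := by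
      rw [(jmM φ χ H).2]
      exact congrArg (fun Z : Matrix ι ι ℂ => Z.map (algebraMap ℂ C)) hHP
    rw [h2] at h1
    exact h1
  -- the scalar matrix at 0
  set c0 : (Matrix ι ι ℂ)ˣ := umap (eM φ χ).toRingHom X with hc0
  have hc0P : (c0 : Matrix ι ι ℂ) * P = P * (c0 : Matrix ι ι ℂ) := by
    have h1 := congrArg (fun Z : Matrix ι ι (MC φ) => Z.map (eM φ χ)) hXH'
    have p3 : ∀ (A B : Matrix ι ι (MC φ)), (A * B).map (eM φ χ) = A.map (eM φ χ) * B.map (eM φ χ) :=
      fun A B => map_mul (eM φ χ).toRingHom.mapMatrix A B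
    simp only [p3] at h1
    have h2 : (H.map (jm φ χ)).map (eM φ χ) = P := by
      rw [← hHP]
      rfl
    have h3 : ((P.map (algebraMap ℂ (L1 D))).map (jm φ χ)).map (eM φ χ) = P := by
      ext a b
      change eM φ χ (jm φ χ (algebraMap ℂ (L1 D) (P a b))) = P a b
      rw [AlgHom.commutes, AlgHom.commutes]
      rfl
    rw [h2, h3] at h1
    exact h1
  obtain ⟨U1, hU1⟩ := KR2_unit xg⁻¹ PC hPCC (by
    have h1 := congrArg (fun z => ((xg⁻¹ : (Matrix ι ι C)ˣ) : Matrix ι ι C) * z *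
      ((xg⁻¹ : (Matrix ι ι C)ˣ) : Matrix ι ι C)) hxgP
    simp only [← mul_assoc, Units.inv_mul, one_mul] at h1
    rw [mul_assoc _ (xg : Matrix ι ι C), Units.mul_inv, mul_one] at h1
    exact h1.symm)
  obtain ⟨U2, hU2⟩ := KR2_unit c0 P hPP hc0P
  have hW0 : W 0 = (c0 : Matrix ι ι ℂ).map (algebraMap ℂ D) := by
    rw [hW, (endM φ χ (X : Matrix ι ι (MC φ))).1]
    rfl
  have hW0P : W 0 * PD = PD * W 0 := by
    rw [hW0, hPD]
    have h1 := congrArg (fun Z : Matrix ι ι ℂ => Z.map (algebraMap ℂ D)) hc0P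
    simp only [Matrix.map_mul] at h1
    exact h1
  have hW'1 : W' 1 = ((xg⁻¹ : (Matrix ι ι C)ˣ) : Matrix ι ι C).map φ := by
    rw [hW', (endM φ χ ((X⁻¹ : (Matrix ι ι (MC φ))ˣ) : Matrix ι ι (MC φ))).2]
    have : xg⁻¹ = umap (gM φ).toRingHom X⁻¹ := by
      rw [hxg]
      unfold umap
      rw [map_inv]
    rw [this]
    rfl
  -- holonomy data
  set V : C(unitInterval, Matrix ι ι D) := ⟨fun s => W' s * W 0 * PD,
    (W'.continuous.mul continuous_const).mul continuous_const⟩ with hV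
  set V' : C(unitInterval, Matrix ι ι D) := ⟨fun s => PD * W' 0 * W s,
    continuous_const.mul W.continuous⟩ with hV'
  have hev0 : evM (H.map (vL D)) 0 = PD := by
    rw [evM_val, hH0]
  have hHol : Hol (H.map (vL D)) V V' := by
    refine ⟨?_, ?_, ?_, ?_, ?_⟩
    · rw [hev0]
      change W' 0 * W 0 * PD = PD
      rw [hW'W, one_mul]
    · intro s
      rw [hev0]
      change PD * W' 0 * W s * (W' s * W 0 * PD) = PD
      have e : PD * W' 0 * W s * (W' s * W 0 * PD) = PD * (W' 0 * (W s * W' s) * W 0) * PD := by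
        simp only [mul_assoc]
      rw [e, hWW', mul_one, hW'W, mul_one, hPDD]
    · intro s
      rw [evM_val]
      change W' s * W 0 * PD * (PD * W' 0 * W s) = H.map (pL D ((s : ℝ) : UnitAddCircle))
      have e : W' s * W 0 * PD * (PD * W' 0 * W s) = W' s * (W 0 * (PD * PD) * W' 0) * W s := by
        simp only [mul_assoc]
      rw [e, hPDD, hW0P, mul_assoc PD, hWW', mul_one, mul_assoc, ← hWs, ← mul_assoc, hW'W, one_mul]
    · intro s
      rw [hev0]
      change W' s * W 0 * PD * PD = W' s * W 0 * PD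
      rw [mul_assoc, hPDD]
    · intro s
      rw [hev0]
      change PD * (PD * W' 0 * W s) = PD * W' 0 * W s
      rw [← mul_assoc, ← mul_assoc, hPDD]
  have hgV : ((umap φ.toRingHom U1 * umap (algebraMap ℂ D) U2 : (Matrix ι ι D)ˣ) : Matrix ι ι D) =
      V 1 + (1 - evM (H.map (vL D)) 0) := by
    rw [hev0, Units.val_mul]
    change (U1 : Matrix ι ι C).map φ * (U2 : Matrix ι ι ℂ).map (algebraMap ℂ D) =
      W' 1 * W 0 * PD + (1 - PD)
    have a1 : (U1 : Matrix ι ι C).map φ = W' 1 * PD + (1 - PD) := by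
      rw [hU1, hW'1]
      have b1 : PC.map φ = PD := by
        ext a b
        exact φ.commutes _
      have b2 : ((((xg⁻¹ : (Matrix ι ι C)ˣ) : Matrix ι ι C) * PC + (1 - PC)).map φ : Matrix ι ι D) =
          (((xg⁻¹ : (Matrix ι ι C)ˣ) : Matrix ι ι C).map φ) * (PC.map φ) + (1 - PC.map φ) := by
        have := (φ.toRingHom.mapMatrix : Matrix ι ι C →+* Matrix ι ι D).map_add
          (((xg⁻¹ : (Matrix ι ι C)ˣ) : Matrix ι ι C) * PC) (1 - PC)
        rw [map_mul, map_sub, map_one] at this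
        exact this
      rw [b2, b1]
    have a2 : (U2 : Matrix ι ι ℂ).map (algebraMap ℂ D) = W 0 * PD + (1 - PD) := by
      rw [hU2, hW0]
      have := ((algebraMap ℂ D).mapMatrix : Matrix ι ι ℂ →+* Matrix ι ι D).map_add
          ((c0 : Matrix ι ι ℂ) * P) (1 - P)
      rw [map_mul, map_sub, map_one] at this
      exact this
    rw [a1, a2]
    have e1 : W' 1 * PD * (W 0 * PD) = W' 1 * W 0 * PD := by
      rw [hW0P, mul_assoc, ← mul_assoc PD, hPDD, ← hW0P, mul_assoc]
    have e2 : W' 1 * PD * (1 - PD) = 0 := by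
      rw [mul_assoc, mul_sub, mul_one, hPDD, sub_self, mul_zero]
    have e3 : (1 - PD) * (W 0 * PD) = 0 := by
      rw [hW0P, sub_mul, one_mul, ← mul_assoc, hPDD, sub_self]
    have e4 : (1 - PD) * (1 - PD) = 1 - PD := by
      rw [mul_sub, mul_one, sub_mul, one_mul, hPDD, sub_self, sub_zero]
    rw [add_mul, mul_add, mul_add, e1, e2, e3, e4, add_zero, zero_add]
  have hEE : H.map (vL D) * H.map (vL D) = H.map (vL D) := KR2_idm (vL D).toRingHom H hH
  refine ⟨k1 U1, ?_⟩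
  rw [map_sub, map_nsmul, hFUN.2.2.1, k0map_k0 (vL D).toRingHom H hH hEE, map_sub, map_nsmul, hone,
    smul_zero, sub_zero]
  have hfin := hde ι (H.map (vL D)) hEE V V' _ hHol hgV
  rw [(hK1M D ι _ _).1] at hfin
  have h0 : k1 (umap (algebraMap ℂ D) U2) = 0 := by
    rw [← k1map_k1 (algebraMap ℂ D) (continuous_algebraMap ℂ D), hKC.2.2 (k1 U2), map_zero]
  rw [h0, add_zero] at hfin
  exact hfin

end Pool.Agent.PV
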