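import Pool.Agent.helper77.PV.SpecK

/-!
# Project pv (MP_376aaf_an), row pvk:KSU: sufficiency
-/

set_option autoImplicit false

open scoped Matrix Topology
open Filter

namespace Pool.Agent.PV

open Pool.Agent.CZ Pool.Agent.PVH

theorem KSU_split {G₀ : Type} [AddCommGroup G₀] (H S : AddSubgroup G₀) (hHS : IsCompl H S) (x : G₀) :
    ∃ h ∈ H, ∃ s ∈ S, h + s = x := by
  have h1 : x ∈ H ⊔ S := by
    rw [hHS.sup_eq_top]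
    exact AddSubgroup.mem_top x
  obtain ⟨h, hh, s, hs, e⟩ := AddSubgroup.mem_sup.1 h1
  exact ⟨h, hh, s, hs, e⟩

theorem KSU_equiv {G₀ : Type} [AddCommGroup G₀] (H S : AddSubgroup G₀) (hHS : IsCompl H S) :
    ∃ f : (H × S) ≃+ G₀, ∀ x : H × S, f x = (x.1 : G₀) + (x.2 : G₀) := by
  refine ⟨AddEquiv.ofBijective (AddMonoidHom.coprod H.subtype S.subtype) ⟨?_, ?_⟩, fun x => rfl⟩
  · rw [injective_iff_map_eq_zero]
    rintro ⟨⟨h, hh⟩, ⟨s, hs⟩⟩ he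
    have he' : h + s = 0 := he
    have h1 : h = -s := eq_neg_of_add_eq_zero_left he'
    have h2 : h ∈ H ⊓ S := ⟨hh, by rw [h1]; exact S.neg_mem hs⟩
    rw [hHS.inf_eq_bot, AddSubgroup.mem_bot] at h2
    subst h2
    have h3 : s = 0 := by rwa [zero_add] at he'
    subst h3
    rfl
  · intro x
    obtain ⟨h, hh, s, hs, e⟩ := KSU_split H S hHS x
    exact ⟨(⟨h, hh⟩, ⟨s, hs⟩), e⟩

theorem KSU (hCNT : CNT_stmt) (hYSP : YSP_stmt) (hDXB : DXB_stmt) (hLCP : LCP_stmt) (hCOE : COE_stmt)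
    (hDFN : DFN_stmt) (hKCH : KCH_stmt) (hKSX : KSX_stmt) (hKHI : KHI_stmt) : KSU_stmt := by
  intro E _ _ _ _ _ _ _ K hK G₀ _ _ g ρ hKD G' _ _ H S hHS hgH htf hS
  have hKDH : KD K (ρ.comp H.subtype) (⟨g, hgH⟩ : H) := by
    refine ⟨hKD.compact, hKD.convex, hKD.nonempty, fun x => hKD.aff x, ?_, hKD.one⟩
    intro a ha ε hε
    obtain ⟨x, hx⟩ := hKD.dense a ha ε hε
    obtain ⟨h, hh, s, hs, rfl⟩ := KSU_split H S hHS x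
    refine ⟨⟨h, hh⟩, fun t => ?_⟩
    have h1 := hx t
    rw [map_add, hS s hs, add_zero] at h1
    exact h1
  have htf' : ∀ (n : ℕ) (x : H), 1 ≤ n → n • x = 0 → x = 0 := by
    intro n x hn hx
    apply Subtype.ext
    apply htf n x (by omega) x.2
    have h1 := congrArg (Subtype.val) hx
    exact h1
  obtain ⟨Ω, _, _, _, _, _, s, Q, T, hmin, hdim, hinv, hT1, hT2, hT3, hT4, hT5⟩ :=
    hCNT E K hK H (ρ.comp H.subtype) ⟨g, hgH⟩ hKDH htf'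
  obtain ⟨A₀, _, ι₀, u₀, hcp₀⟩ := hLCP Ω s
  obtain ⟨c₀, hcov₀⟩ := hCOE Ω s A₀ ι₀ u₀ hcp₀
  have hInv₀ : HasInv A₀ (⟨g, hgH⟩ : H) ℤ K (ρ.comp H.subtype) :=
    hKCH E K H (ρ.comp H.subtype) ⟨g, hgH⟩ Ω s Q T hmin hdim hinv hT1 hT2 hT3 hT4 hT5 A₀ ι₀ u₀ c₀
      hcov₀
  obtain ⟨Y, _, _, _, _, y, ⟨σ₀⟩, ⟨σ₁⟩⟩ := hYSP S G'
  obtain ⟨X, _, _, _, _, α, π, e, r, hαmin, hext, hsb⟩ := hDXB Ω Y s hmin
  obtain ⟨A, _, ι, u, hcp⟩ := hLCP X α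
  obtain ⟨c, hcov⟩ := hCOE X α A ι u hcp
  obtain ⟨Φ, hΦ1, hΦ2, hΦ3⟩ := hDFN X Ω α s π hext.eqv A A₀ ι u c ι₀ u₀ c₀ hcov hcov₀ hcp₀
  have hInv := hKSX Ω Y X s α π e r hext hmin hαmin A A₀ ι u c ι₀ u₀ c₀ hcov hcov₀ Φ hΦ1 hΦ2 hΦ3 y
    S G' σ₀ σ₁ H ⟨g, hgH⟩ ℤ E K (ρ.comp H.subtype) hInv₀
  obtain ⟨f, hf⟩ := KSU_equiv H S hHS
  have hfin := hKHI A (H × S) _ (ℤ × G') E K _ hInv G₀ (ℤ × G') f (AddEquiv.refl _) ρ (by
    intro x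
    rw [hf, map_add, hS _ x.2.2, add_zero]
    rfl)
  have hfg : f ((⟨g, hgH⟩, 0) : H × S) = g := by
    rw [hf]
    exact add_zero g
  rw [hfg] at hfin
  exact ⟨X, inferInstance, inferInstance, inferInstance, inferInstance, α, hαmin, hsb, A,
    inferInstance, ι, u, hcp, hfin⟩

end Pool.Agent.PV
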