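import Pool.Agent.helper77.PV.SpecB

/-!
# Project pv (MP_376aaf_an), row pv:ZM: Z-pairs of matrices
-/

set_option autoImplicit false

open scoped Matrix Topology
open Filter

namespace Pool.Agent.PV

open Pool.Agent.CZ

attribute [local instance] Matrix.linftyOpNormedRing Matrix.linftyOpNormedAlgebra

section

variable {A : Type} [NormedRing A] {κ : Type} [Fintype κ] [DecidableEq κ]

theorem ZM_uM_zpow (u : Aˣ) (n : ℤ) : uM κ u ^ n = uM κ (u ^ n) := by
  unfold uM
  rw [map_zpow]

theorem ZM_uM_inv (u : Aˣ) : (uM κ u)⁻¹ = uM κ (u⁻¹) := by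
  unfold uM
  rw [map_inv]

theorem ZM_uM_coe (u : Aˣ) : (uM κ u : Matrix κ κ A) = Matrix.diagonal (fun _ => (u : A)) := rfl

theorem ZM_uM_norm (u : Aˣ) (h : ‖(u : A)‖ ≤ 1) : ‖(uM κ u : Matrix κ κ A)‖ ≤ 1 := by
  rw [ZM_uM_coe, Matrix.linfty_opNorm_diagonal]
  exact (pi_norm_le_iff_of_nonneg zero_le_one).2 fun _ => h

theorem ZM_norm_le {B : Type} [NormedRing B] (M : Matrix κ κ A) (N : Matrix κ κ B)
    (h : ∀ i j, ‖N i j‖ ≤ ‖M i j‖) : ‖N‖ ≤ ‖M‖ := by
  rw [Matrix.linfty_opNorm_def, Matrix.linfty_opNorm_def, NNReal.coe_le_coe]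
  exact Finset.sup_mono_fun fun i _ => Finset.sum_le_sum fun j _ => h i j

theorem ZM_norm_eq {B : Type} [NormedRing B] (M : Matrix κ κ A) (N : Matrix κ κ B)
    (h : ∀ i j, ‖N i j‖ = ‖M i j‖) : ‖N‖ = ‖M‖ :=
  le_antisymm (ZM_norm_le M N fun i j => (h i j).le) (ZM_norm_le N M fun i j => (h i j).ge)

theorem ZM_norm_single (i j : κ) (a : A) : ‖Matrix.single i j a‖ ≤ ‖a‖ := by
  rw [Matrix.linfty_opNorm_def, ← coe_nnnorm, NNReal.coe_le_coe]
  refine Finset.sup_le fun i' _ => ?_
  by_cases hi : i = i'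
  · subst hi
    rw [Finset.sum_eq_single j]
    · rw [Matrix.single_apply_same]
    · intro j' _ hj'
      rw [Matrix.single_apply_of_ne _ _ _ _ _ fun h => hj' h.2.symm, nnnorm_zero]
    · intro h
      exact absurd (Finset.mem_univ j) h
  · have h0 : ∑ j', ‖Matrix.single i j a i' j'‖₊ = 0 := by
      apply Finset.sum_eq_zero
      intro j' _
      rw [Matrix.single_apply_of_ne _ _ _ _ _ fun h => hi h.1, nnnorm_zero]
    rw [h0]
    exact zero_le

theorem ZM_sum {E : Type} [NormedAddCommGroup E] [NormedSpace ℂ E] (T : Submodule ℂ E) {ι : Type}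
    (s : Finset ι) (f : ι → E) (hf : ∀ i, ∀ ε : ℝ, 0 < ε → ∃ y ∈ T, dist (f i) y < ε) :
    ∀ ε : ℝ, 0 < ε → ∃ y ∈ T, dist (∑ i ∈ s, f i) y < ε := by
  have h1 : ∑ i ∈ s, f i ∈ T.topologicalClosure :=
    Submodule.sum_mem _ fun i _ => Metric.mem_closure_iff.2 (hf i)
  exact Metric.mem_closure_iff.1 h1

end

theorem ZM : ZM_stmt := by
  intro B A _ _ _ _ _ _ al io u c h κ _ _
  refine ⟨?_, ?_, ZM_uM_norm u h.nu, ?_, ?_, ?_, ?_, ?_⟩
  · intro b
    exact ZM_norm_eq b _ fun i j => h.isoB (b i j)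
  · intro b
    exact ZM_norm_eq b _ fun i j => h.isoA (b i j)
  · rw [ZM_uM_inv]
    exact ZM_uM_norm _ h.nui
  · intro b
    rw [ZM_uM_coe]
    ext i j
    rw [Matrix.diagonal_mul, Matrix.mul_diagonal]
    exact h.cov (b i j)
  · -- density
    set S : Submodule ℂ A :=
      Submodule.span ℂ {a : A | ∃ (b : B) (n : ℤ), a = io b * ((u ^ n : Aˣ) : A)} with hS
    set T : Submodule ℂ (Matrix κ κ A) :=
      Submodule.span ℂ {a : Matrix κ κ A | ∃ (b : Matrix κ κ B) (n : ℤ),
        a = io.mapMatrix b * ((uM κ u ^ n : (Matrix κ κ A)ˣ) : Matrix κ κ A)} with hT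
    have h1 : ∀ (i j : κ) (a : A), a ∈ S → Matrix.single i j a ∈ T := by
      intro i j a ha
      induction ha using Submodule.span_induction with
      | mem x hx =>
        obtain ⟨b, n, rfl⟩ := hx
        apply Submodule.subset_span
        refine ⟨Matrix.single i j b, n, ?_⟩
        rw [ZM_uM_zpow, ZM_uM_coe]
        ext i' j'
        rw [Matrix.mul_diagonal]
        change _ = io (Matrix.single i j b i' j') * _
        by_cases hij : i = i' ∧ j = j'
        · obtain ⟨rfl, rfl⟩ := hij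
          rw [Matrix.single_apply_same, Matrix.single_apply_same]
        · rw [Matrix.single_apply_of_ne _ _ _ _ _ hij, Matrix.single_apply_of_ne _ _ _ _ _ hij, map_zero,
            zero_mul]
      | zero => rw [Matrix.single_zero]; exact T.zero_mem
      | add x y _ _ hx hy => rw [Matrix.single_add]; exact T.add_mem hx hy
      | smul r x _ hx =>
        have e : Matrix.single i j (r • x) = r • Matrix.single i j x := by
          rw [Matrix.smul_single]
        rw [e]
        exact T.smul_mem r hx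
    have h2 : ∀ (i j : κ) (a : A) (ε : ℝ), 0 < ε → ∃ y ∈ T, dist (Matrix.single i j a) y < ε := by
      intro i j a ε hε
      obtain ⟨a', ha', hd⟩ := Metric.mem_closure_iff.1 (h.dense a) ε hε
      refine ⟨Matrix.single i j a', h1 i j a' ha', lt_of_le_of_lt ?_ hd⟩
      rw [dist_eq_norm, dist_eq_norm]
      have e : Matrix.single i j a - Matrix.single i j a' = Matrix.single i j (a - a') := by
        rw [sub_eq_iff_eq_add, ← Matrix.single_add, sub_add_cancel]
      rw [e]
      exact ZM_norm_single i j _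
    intro M
    rw [Metric.mem_closure_iff]
    rw [Matrix.matrix_eq_sum_single M]
    exact ZM_sum T Finset.univ _ fun i => ZM_sum T Finset.univ _ fun j => h2 i j _
  · intro n M
    exact ZM_norm_le M _ fun i j => h.cnorm n (M i j)
  · intro m n b
    rw [ZM_uM_zpow, ZM_uM_coe]
    ext i j
    change c m ((io.mapMatrix b * Matrix.diagonal (fun _ => ((u ^ n : Aˣ) : A)) : Matrix κ κ A) i j) = _
    rw [Matrix.mul_diagonal]
    change c m (io (b i j) * ((u ^ n : Aˣ) : A)) = _
    rw [h.cval]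
    split_ifs <;> rfl

end Pool.Agent.PV
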